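import Mathlib

/-!
# Self-interest cumulative subtraction games: a unilateral deviation towards AvA can pay

The outcome function `outcome S a b h` below is the one of the problem: `a` is the tie-breaking
convention of the player who moves first, `b` the convention of the other player, `h` the heap size.
For the four-element subtraction set `S = {4, 7, 18, 34}` we show that

* at `h = 85` the second player scores `42` in AvA but only `41` in AvF, and
* at `h = 119` the first player scores `76` in AvA but only `75` in FvA,

so that both unilateral deviations towards AvA can be strictly profitable for the deviating player,
and both families of inequalities asked about in the problem fail.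
-/

set_option autoImplicit false

namespace Pool.Agent.Results.MP_0d6f46_co.AvACounterexample

/-- Tie-breaking conventions: `F` friendly, `A` antagonistic. -/
inductive Conv where
  | F : Conv
  | A : Conv
deriving DecidableEq

instance : Fintype Conv := ⟨{Conv.F, Conv.A}, by intro x; cases x <;> decide⟩

/-- The maximum of a finite set of natural numbers, `0` if it is empty. -/
def maxOrZero (s : Finset ℕ) : ℕ := if hs : s.Nonempty then s.max' hs else 0

/-- The minimum of a finite set of natural numbers, `0` if it is empty. -/
def minOrZero (s : Finset ℕ) : ℕ := if hs : s.Nonempty then s.min' hs else 0

/-- One step of the recursion. `S` is the subtraction set, `a` the convention of the player to move,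
`h` the heap size and `o t` stands for the outcome (score of the then first player, score of the
then second player) of the position with heap `t` and swapped roles. The first component is the
best score of the player to move, the second one is the score that the opponent gets when the player
to move breaks ties among the best moves by the convention `a`. -/
def step (S : Finset ℕ) (a : Conv) (h : ℕ) (o : ℕ → ℕ × ℕ) : ℕ × ℕ :=
  let moves := S.filter (fun s => s ≤ h)
  let best := maxOrZero (moves.image (fun s => s + (o (h - s)).2))
  let star := moves.filter (fun s => s + (o (h - s)).2 = best)
  let opp := star.image (fun s => (o (h - s)).1)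
  (best, match a with
    | Conv.F => maxOrZero opp
    | Conv.A => minOrZero opp)

/-- The outcome `(o¹, o²)` of the position with heap `h`, where the player to move has the
convention `a` and the other player the convention `b`, for a subtraction set `S` of positive
integers. (The guard `t < h` is automatically true for the heaps `t = h - s` with `1 ≤ s ≤ h`
that are reached from `h`; it only serves to make the recursion well-founded.) -/
def outcome (S : Finset ℕ) (a b : Conv) (h : ℕ) : ℕ × ℕ :=
  step S a h (fun t => if t < h then outcome S b a t else (0, 0))
termination_by h

/-- Sanity check: `outcome` satisfies the defining recursion of the problem, for every finite set of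
positive integers. -/
theorem outcome_eq (S : Finset ℕ) (hS : ∀ s ∈ S, 1 ≤ s) (a b : Conv) (h : ℕ) :
    outcome S a b h = step S a h (fun t => outcome S b a t) := by
  rw [outcome]
  have key : ∀ s ∈ S.filter (fun s => s ≤ h), h - s < h := by
    intro s hs
    rw [Finset.mem_filter] at hs
    have := hS s hs.1
    omega
  have e1 : (S.filter (fun s => s ≤ h)).image
        (fun s => s + (if h - s < h then outcome S b a (h - s) else (0, 0)).2)
      = (S.filter (fun s => s ≤ h)).image (fun s => s + (outcome S b a (h - s)).2) := by
    apply Finset.image_congr
    intro s hs
    simp only [if_pos (key s hs)]
  have e2 : ∀ m : ℕ, (S.filter (fun s => s ≤ h)).filter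
        (fun s => s + (if h - s < h then outcome S b a (h - s) else (0, 0)).2 = m)
      = (S.filter (fun s => s ≤ h)).filter (fun s => s + (outcome S b a (h - s)).2 = m) := by
    intro m
    apply Finset.filter_congr
    intro s hs
    simp only [if_pos (key s hs)]
  have e3 : ∀ m : ℕ, ((S.filter (fun s => s ≤ h)).filter
        (fun s => s + (outcome S b a (h - s)).2 = m)).image
          (fun s => (if h - s < h then outcome S b a (h - s) else (0, 0)).1)
      = ((S.filter (fun s => s ≤ h)).filter
        (fun s => s + (outcome S b a (h - s)).2 = m)).image
          (fun s => (outcome S b a (h - s)).1) := by
    intro m
    apply Finset.image_congr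
    intro s hs
    have hs' := (Finset.mem_filter.mp hs).1
    simp only [if_pos (key s hs')]
  simp only [step]
  rw [e1, e2, e3]

/-- The subtraction set of the counterexample. -/
def S0 : Finset ℕ := {4, 7, 18, 34}

/-- Encoded table of outcomes (base `128`) for heaps below `120`. -/
def code (a b : Conv) : ℕ × ℕ :=
  match a, b with
  | Conv.F, Conv.F =>
    (4386938872032089038354443406588076371318358608138489456801127445266986040872492314498840007190895585315035507783036330476950797519298255055584184051684994975597468617305745867681613742934928587551184497579200936182188029882166919683511027303202722676736,
     2482335459920758402296908872761574279357021669440169272272679390048409199001117217170281223299641604800220716372418274594546721514883207406482163919937578931965190473637005821005534317987883909390599296038103909382488944805451961275803687634135844651008)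
  | Conv.F, Conv.A =>
    (4329661064195138910864175160100804440691785881138730264450465246865671020284693514173841599621454852125116096322837904508378631449655914065324893855587008836257474912875023800199019672080670317417632437284060764848021294798354725383612805559851576983552,
     2482335459920758402296908872761574279357021669440169272272679390048409199001117217170281223299641604800220716372418274594546721514883207406482163919937578931965190473637005821005534317987883909390599296038103909382488944805451961275803687634135844651008)
  | Conv.A, Conv.F =>
    (4386938872032089038354443406588076371318358608138489456801127445266986040872492314498840007190895585315035507783036330476950797519298255055584184051684994975597468617305745867681613742934928587551184497579200936182188029882166919683511027303202722676736,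
     2482335459494005478592598199220463764750861088233281277951125217072420574617412406529862013636005434690441674167519157071621616894674968450465364095332204135109670902099622048461463708701146466043462727867197772173663186616716000846208893938049338048512)
  | Conv.A, Conv.A =>
    (4386938872032088833273012727968154117673229359483071569509348146270293148295399322492532168153104108875974815341275903948527425171170060818725783907670137995498500661490982224403553274603628274970122517300524255342973155905568200550843523134064525574144,
     2482335459494005478592598199220463764750861088233281277951125217072420574747084768057393043589518180430790460136658101829197770019539260003298264451985583710100516181696615619967647665304296127993311198973815750545128025182777366066870825294346510663680)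

/-- Lookup in the table. -/
def tab (a b : Conv) (h : ℕ) : ℕ × ℕ :=
  (((code a b).1 / 128 ^ h) % 128, ((code a b).2 / 128 ^ h) % 128)

theorem tab_check : ∀ h < 120, ∀ a b : Conv, step S0 a h (fun t => tab b a t) = tab a b h := by
  decide +kernel

theorem step_congr (S : Finset ℕ) (hS : ∀ s ∈ S, 1 ≤ s) (a : Conv) (h : ℕ) (o o' : ℕ → ℕ × ℕ)
    (hoo : ∀ t < h, o t = o' t) : step S a h o = step S a h o' := by
  have key : ∀ s ∈ S.filter (fun s => s ≤ h), o (h - s) = o' (h - s) := by
    intro s hs
    rw [Finset.mem_filter] at hs
    have := hS s hs.1
    exact hoo _ (by omega)
  have e1 : (S.filter (fun s => s ≤ h)).image (fun s => s + (o (h - s)).2)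
      = (S.filter (fun s => s ≤ h)).image (fun s => s + (o' (h - s)).2) := by
    apply Finset.image_congr
    intro s hs
    simp only [key s hs]
  have e2 : ∀ m : ℕ, (S.filter (fun s => s ≤ h)).filter (fun s => s + (o (h - s)).2 = m)
      = (S.filter (fun s => s ≤ h)).filter (fun s => s + (o' (h - s)).2 = m) := by
    intro m
    apply Finset.filter_congr
    intro s hs
    simp only [key s hs]
  have e3 : ∀ m : ℕ, ((S.filter (fun s => s ≤ h)).filter
        (fun s => s + (o' (h - s)).2 = m)).image (fun s => (o (h - s)).1)
      = ((S.filter (fun s => s ≤ h)).filter
        (fun s => s + (o' (h - s)).2 = m)).image (fun s => (o' (h - s)).1) := by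
    intro m
    apply Finset.image_congr
    intro s hs
    have hs' := (Finset.mem_filter.mp hs).1
    simp only [key s hs']
  simp only [step]
  rw [e1, e2, e3]

theorem S0_pos : ∀ s ∈ S0, 1 ≤ s := by decide

theorem outcome_tab : ∀ h < 120, ∀ a b : Conv, outcome S0 a b h = tab a b h := by
  intro h
  induction h using Nat.strong_induction_on with
  | _ h ih =>
    intro hh a b
    rw [outcome_eq S0 S0_pos, ← tab_check h hh a b]
    apply step_congr S0 S0_pos
    intro t ht
    exact ih t ht (by omega) b a

/-- **The answer to Q1 is no.** There is a finite nonempty set `S` (with four elements) of positive
integers such that for some heap `h` player 2 scores strictly more in AvA than in AvF, and for some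
heap `h'` player 1 scores strictly more in AvA than in FvA. -/
theorem result :
    ∃ S : Finset ℕ, S.Nonempty ∧ S.card = 4 ∧ (∀ s ∈ S, 1 ≤ s) ∧
      (∃ h : ℕ, (outcome S Conv.A Conv.F h).2 < (outcome S Conv.A Conv.A h).2) ∧
      (∃ h : ℕ, (outcome S Conv.F Conv.A h).1 < (outcome S Conv.A Conv.A h).1) := by
  refine ⟨S0, ⟨4, by decide⟩, by decide, S0_pos, ⟨85, ?_⟩, ⟨119, ?_⟩⟩
  · rw [outcome_tab 85 (by norm_num), outcome_tab 85 (by norm_num)]
    decide +kernel
  · rw [outcome_tab 119 (by norm_num), outcome_tab 119 (by norm_num)]
    decide +kernel

end Pool.Agent.Results.MP_0d6f46_co.AvACounterexample
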